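import Pool.Agent.NGM.StmtsL

/-!
# NGM, row EXT: extension of the infinite cyclic group
-/

set_option autoImplicit false

universe u

namespace Pool.Agent.NGM.H32

open Pool.Agent.NGM

/-- the join of two solvable subgroups, the first one normal -/
theorem sup_sol {N : Type u} [Group N] (A B : Subgroup N) [A.Normal] (hA : Group.IsSolvable A)
    (hB : Group.IsSolvable B) : Group.IsSolvable (A ⊔ B : Subgroup N) := by
  have h1 : Group.IsSolvable (B.map (QuotientGroup.mk' A)) :=
    Group.isSolvable_of_surjective (f := (QuotientGroup.mk' A).subgroupMap B)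
      (MonoidHom.subgroupMap_surjective _ _)
  have h2 : ∀ x : (A ⊔ B : Subgroup N), QuotientGroup.mk' A (x : N) ∈ B.map (QuotientGroup.mk' A) := by
    rintro ⟨x, hx⟩
    have h3 : QuotientGroup.mk' A x ∈ (A ⊔ B).map (QuotientGroup.mk' A) :=
      Subgroup.mem_map_of_mem _ hx
    rw [Subgroup.map_sup] at h3
    have h4 : A.map (QuotientGroup.mk' A) = ⊥ := by
      rw [Subgroup.map_eq_bot_iff, QuotientGroup.ker_mk']
    rwa [h4, bot_sup_eq] at h3
  refine Group.isSolvable_of_ker_le_range (Subgroup.inclusion (le_sup_left : A ≤ A ⊔ B))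
    (((QuotientGroup.mk' A).comp (A ⊔ B).subtype).codRestrict (B.map (QuotientGroup.mk' A)) h2) ?_
  intro x hx
  have h5 : QuotientGroup.mk' A (x : N) = 1 := by
    exact congrArg Subtype.val (MonoidHom.mem_ker.1 hx)
  have h6 : (x : N) ∈ A := (QuotientGroup.eq_one_iff (N := A) (x : N)).1 h5
  exact ⟨⟨x, h6⟩, rfl⟩

/-- the largest normal solvable subgroup -/
theorem radical {N : Type u} [Group N] (hN : ∀ H : Subgroup N, H.FG) :
    ∃ R : Subgroup N, R.Normal ∧ Group.IsSolvable R ∧
      ∀ S : Subgroup N, S.Normal → Group.IsSolvable S → S ≤ R := by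
  let K : Set (Subgroup N) := {S | S.Normal ∧ Group.IsSolvable S}
  have hne : K.Nonempty := ⟨⊥, Subgroup.normal_bot, inferInstance⟩
  have hdir : DirectedOn (· ≤ ·) K := by
    rintro A ⟨hA, hA'⟩ B ⟨hB, hB'⟩
    exact ⟨A ⊔ B, ⟨Subgroup.sup_normal A B, sup_sol A B hA' hB'⟩, le_sup_left, le_sup_right⟩
  obtain ⟨F, hF⟩ := hN (sSup K)
  have h1 : ∀ G : Finset N, (∀ x ∈ G, x ∈ sSup K) → ∃ S ∈ K, ∀ x ∈ G, x ∈ S := by
    classical
    intro G
    induction G using Finset.induction_on with
    | empty =>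
      intro _
      obtain ⟨S, hS⟩ := hne
      exact ⟨S, hS, by simp⟩
    | insert a G ha ih =>
      intro h
      obtain ⟨S, hS, hS'⟩ := ih fun x hx => h x (Finset.mem_insert_of_mem hx)
      obtain ⟨T, hT, hT'⟩ := (Subgroup.mem_sSup_of_directedOn hne hdir).1
        (h a (Finset.mem_insert_self a G))
      obtain ⟨U, hU, h2, h3⟩ := hdir S hS T hT
      refine ⟨U, hU, fun x hx => ?_⟩
      rcases Finset.mem_insert.1 hx with rfl | hx
      · exact h3 hT'
      · exact h2 (hS' x hx)
  obtain ⟨S, hS, hS'⟩ := h1 F fun x hx => by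
    rw [← hF]
    exact Subgroup.subset_closure hx
  have h2 : sSup K = S := by
    refine le_antisymm ?_ (le_sSup hS)
    rw [← hF, Subgroup.closure_le]
    exact hS'
  refine ⟨S, hS.1, hS.2, fun T hT hT' => ?_⟩
  rw [← h2]
  exact le_sSup ⟨hT, hT'⟩

theorem fg_sub {Q : Type u} [Group Q] (hQ : ∀ H : Subgroup Q, H.FG) (L : Subgroup Q)
    (K : Subgroup L) : K.FG := by
  have h1 : Group.FG (K.map L.subtype) := (Group.fg_iff_subgroup_fg _).2 (hQ _)
  have e : K ≃* K.map L.subtype := K.equivMapOfInjective L.subtype L.subtype_injective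
  exact (Group.fg_iff_subgroup_fg _).1
    (Group.fg_of_surjective (f := e.symm.toMonoidHom) e.symm.surjective)

theorem ext : ExtStmt.{u} := by
  intro Q _ hQ H f hH hf hAP
  obtain ⟨S, hS1, hS2, hS3⟩ := hAP
  have hHfg : ∀ K : Subgroup H, K.FG := fun K => fg_sub hQ H K
  have hNfg : ∀ K : Subgroup f.ker, K.FG := fun K => fg_sub hHfg f.ker K
  obtain ⟨R, hR1, hR2, hR3⟩ := radical hNfg
  -- `R` has finite index in the kernel
  have hRi : R.FiniteIndex := by
    have h1 : S.FiniteIndex := ⟨hS1⟩
    have h2 : S.normalCore.FiniteIndex := inferInstance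
    have h2b : Group.IsSolvable S := hS2
    have h3 : Group.IsSolvable S.normalCore :=
      Group.isSolvable_of_isSolvable_injective (f := Subgroup.inclusion S.normalCore_le)
        (Subgroup.inclusion_injective _)
    exact Subgroup.finiteIndex_of_le (hR3 S.normalCore inferInstance h3)
  obtain ⟨t, ht⟩ := hf (Multiplicative.ofAdd 1)
  -- `R` in `H`
  let R' : Subgroup H := R.map f.ker.subtype
  have hR' : R'.Normal := by
    refine ⟨fun x hx g => ?_⟩
    obtain ⟨y, hy, rfl⟩ := hx
    let c : f.ker ≃* f.ker := (MulAut.conjNormal (H := f.ker) g)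
    have h1 : (R.map c.toMonoidHom).Normal := by
      refine hR1.map c.toMonoidHom c.surjective
    have h2 : Group.IsSolvable (R.map c.toMonoidHom) :=
      Group.isSolvable_of_surjective (f := c.toMonoidHom.subgroupMap R)
        (MonoidHom.subgroupMap_surjective _ _)
    have h3 := hR3 _ h1 h2 (Subgroup.mem_map_of_mem c.toMonoidHom hy)
    refine ⟨c y, h3, ?_⟩
    exact MulAut.conjNormal_apply g y
  have hR's : Group.IsSolvable R' := Group.isSolvable_of_surjective (f := f.ker.subtype.subgroupMap R)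
    (MonoidHom.subgroupMap_surjective _ _)
  let L : Subgroup H := R' ⊔ Subgroup.zpowers t
  have hR'L : R' ≤ L := le_sup_left
  have htL : t ∈ L := (le_sup_right : Subgroup.zpowers t ≤ L) (Subgroup.mem_zpowers t)
  have hR'f : ∀ x ∈ R', f x = 1 := by
    rintro x ⟨y, -, rfl⟩
    exact y.2
  have ht' : ∀ i : ℤ, f (t ^ i) = Multiplicative.ofAdd i := by
    intro i
    rw [map_zpow, ht, ← ofAdd_zsmul]
    simp
  -- solvable
  have hLs : Group.IsSolvable L := by
    refine Group.isSolvable_of_ker_le_range (Subgroup.inclusion hR'L) (f.comp L.subtype) ?_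
    rintro ⟨x, hx⟩ hx'
    have h1 : f x = 1 := hx'
    obtain ⟨r, hr, s, hs, hrs⟩ := (Subgroup.mem_sup_of_normal_left).1 hx
    obtain ⟨i, rfl⟩ := Subgroup.mem_zpowers_iff.1 hs
    have h2 : i = 0 := by
      rw [← hrs, map_mul, hR'f r hr, one_mul, ht'] at h1
      exact Multiplicative.ofAdd.injective (h1.trans ofAdd_zero.symm)
    subst h2
    refine ⟨⟨r, hr⟩, ?_⟩
    apply Subtype.ext
    simpa using hrs
  -- index
  have hLi : L.index ≠ 0 := by
    have h1 : Finite (f.ker ⧸ R) := Subgroup.finite_quotient_of_finiteIndex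
    let φ : f.ker ⧸ R → H ⧸ L := Quotient.map' (fun n => (n : H)) (by
      intro a b hab
      rw [QuotientGroup.leftRel_apply] at hab ⊢
      exact hR'L ⟨a⁻¹ * b, hab, rfl⟩)
    have h2 : Function.Surjective φ := by
      intro q
      induction q using QuotientGroup.induction_on with
      | H h =>
        have h3 : h * t ^ (-(Multiplicative.toAdd (f h))) ∈ f.ker := by
          rw [MonoidHom.mem_ker, map_mul, ht', ofAdd_neg, ofAdd_toAdd, mul_inv_cancel]
        refine ⟨QuotientGroup.mk ⟨_, h3⟩, ?_⟩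
        change QuotientGroup.mk (h * t ^ (-(Multiplicative.toAdd (f h)))) = QuotientGroup.mk h
        rw [QuotientGroup.eq]
        have h4 : (h * t ^ (-(Multiplicative.toAdd (f h))))⁻¹ * h =
            t ^ (Multiplicative.toAdd (f h)) := by
          group
        rw [h4]
        exact L.zpow_mem htL _
    have h3 : Finite (H ⧸ L) := Finite.of_surjective φ h2
    exact Subgroup.index_ne_zero_of_finite
  refine ⟨L.map H.subtype, ?_, ?_, fun K => fg_sub hQ _ K⟩
  · rw [Subgroup.index_map_subtype]
    exact mul_ne_zero hLi hH.index_ne_zero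
  · exact Group.isSolvable_of_surjective (f := H.subtype.subgroupMap L)
      (MonoidHom.subgroupMap_surjective _ _)

end Pool.Agent.NGM.H32
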